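import Pool.Agent.Helper63.PH.Defs
import Pool.Agent.Helper83.PH.Defs
import Pool.Agent.Helper63.PL.Walks
import Pool.Agent.Helper95.PH.Geo

/-!
# PH: the facts given by the drawings (`BadW`) are the facts used in the counting (`Wk`) (MP_0dbcb7_co)
-/

set_option autoImplicit false

open Set
open Pool.Agent.Helper83.OP Pool.Agent.Helper93.HH Pool.Agent.Helper95.HH Pool.Agent.Helper23.PL

namespace Pool.Agent.Helper93.PH

variable {V P Q : Type} [Finite V] {D : HD V P Q}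

omit [Finite V] in
theorem ball_U (hD : D.Ok) {y : V} (hy : y ∉ D.U) (t : ℕ) : ∀ v ∈ D.ball t y, v ∉ D.U := by
  rintro v ⟨p, -⟩
  rcases p.reverse with _ | ⟨h, -⟩
  · exact hy
  · exact hD.N_U _ _ h

/-- `BadW` gives `Wk` -/
theorem wk_of_badW {K k k2 n0 : ℕ} (hD : D.Ok) (hk : k ≤ K) (hn : k2 * (D.Kh * D.r) ≤ n0)
    (h : Pool.Agent.Helper83.PH.BadW D K n0) : Pool.Agent.Helper63.PH.Wk D k k2 := by
  classical
  have hvol : ∀ y ρ, y ∉ D.U → bv D (D.ball ρ y) ≤ k2 → D.vol (D.ball ρ y) ≤ n0 := by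
    intro y ρ hy hb
    exact (Pool.Agent.Helper95.PH.vol_le hD (ball_U hD hy ρ)).trans
      ((Nat.mul_le_mul_right _ hb).trans hn)
  refine ⟨?_, ?_, ?_, ?_, ?_⟩
  · intro v Z hZ y hy ρ _ hb hq
    have hyU : y ∉ D.U := by
      obtain ⟨w, hw, -, -⟩ := SimpleGraph.Walk.not_nil_iff.mp (hZ.rotate hy).not_nil
      exact hD.N_U _ _ hw
    exact (Nat.mul_le_mul_right _ hk).trans_lt (h.e1 v Z hZ y hy ρ (hvol y ρ hyU hb) hq)
  · intro q y z hy hz hR
    exact h.q1 q y z hy hz (Pool.Agent.Helper63.PL.Rch.mono hR (fun _ hf => hf)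
      (Nat.mul_le_mul_right _ hk))
  · intro p hb
    exact h.p1 p (Pool.Agent.Helper63.PL.Byp.mono hb (fun _ hf => hf) (Nat.mul_le_mul_right _ hk))
  · intro p ρ hρ hb hq hB
    refine h.p2 p ρ hρ (hvol _ _ (hD.x_U p) hb) (fun s hs => ?_)
      (Pool.Agent.Helper63.PL.Byp.mono hB (fun _ hf => hf) (Nat.mul_le_mul_right _ hk))
    by_contra hne
    exact hq s hne hs
  · intro p q g ρ _ _ hc hb hg hmin hl hs y z W hy hz hW hcw v hv hR
    refine h.p3 p q ρ g hc hg hl (hvol _ _ (hD.x_U p) hb) (fun s hs' => ?_) y z W hy hz hW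
      (fun t' ht' => ?_) v hv (Pool.Agent.Helper63.PL.Rch.mono hR (fun _ hf => hf)
        (Nat.mul_le_mul_right _ hk))
    · by_contra hne
      push Not at hne
      exact hs s hne.1 hne.2 hs'
    · refine hcw.trans (Nat.mul_le_mul hk ?_)
      have := hmin t' ht'
      omega

end Pool.Agent.Helper93.PH
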