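import Pool.Agent.Helper93.PH.WkOf
import Pool.Agent.Helper63.PH.Count
import Pool.Agent.Helper83.PH.Draw
import Pool.Agent.Helper95.HH.Exist
import Pool.Agent.Helper71.PV.Main
import Pool.Agent.Helper71.QU.Any
import Pool.Agent.Helper23.HM.S2
import Pool.Agent.Helper23.HM.S4
import Pool.Agent.Helper43.HM.S1
import Pool.Agent.Helper43.HM.S3

/-!
# PH: critical graphs with threads of polynomially comparable lengths, arbitrary degrees (MP_0dbcb7_co)

`main_PH`: for every `A` there is `K` such that all 1-planar-critical graphs all of whose threads have between `r` and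
`(r + 1) ^ A` edges are `K`-planar, for all `r ≥ 1`. `main_PHm`: `m`-planar-critical graphs.
-/

set_option autoImplicit false

open Set
open Pool.Agent.Helper83.OP Pool.Agent.Helper93.HH Pool.Agent.Helper95.HH Pool.Agent.Helper95.UP
open Pool.Agent.Helper23.HM Pool.Agent.Helper43.HM

namespace Pool.Agent.Helper93.PH

/-- a twelfth root -/
theorem exists_root (r : ℕ) (hr : 1 ≤ r) : ∃ s, 1 ≤ s ∧ s ^ 12 ≤ r ∧ r < (s + 1) ^ 12 := by
  classical
  have hb : ∃ s, r < (s + 1) ^ 12 := ⟨r, (Nat.lt_succ_self r).trans_le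
    (Nat.le_self_pow (by norm_num) _)⟩
  refine ⟨Nat.find hb, ?_, ?_, Nat.find_spec hb⟩
  · by_contra h
    have h0 : Nat.find hb = 0 := by omega
    have := Nat.find_spec hb
    rw [h0] at this
    norm_num at this
    omega
  · rcases Nat.eq_zero_or_pos (Nat.find hb) with h0 | h0
    · rw [h0]
      norm_num
    · have := Nat.find_min hb (m := Nat.find hb - 1) (by omega)
      rw [not_lt, Nat.sub_add_cancel h0] at this
      exact this

/-- **Theorem (PH)**, `m = 1` -/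
theorem main_PH (A : ℕ) : ∃ k : ℕ, ∀ (r : ℕ) (V : Type) [Fintype V] (G : SimpleGraph V), 1 ≤ r →
    ¬ KPl 1 G → (∀ e ∈ G.edgeSet, KPl 1 (G.deleteEdges {e})) → ThrLen G r ((r + 1) ^ A) →
    KPl k G := by
  classical
  obtain ⟨f, hf⟩ := Pool.Agent.Helper83.PH.draw_PH
  obtain ⟨B, hB⟩ : ∃ B, B = 36 * (A + 1) := ⟨_, rfl⟩
  obtain ⟨K, s0, hcount⟩ := Pool.Agent.Helper63.PH.count_PH B
  obtain ⟨c, hc⟩ := Pool.Agent.Helper71.QU.main_any
  obtain ⟨r0, hr0⟩ : ∃ r0, r0 = (s0 + 3) ^ 12 := ⟨_, rfl⟩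
  obtain ⟨k1, hk1⟩ : ∃ k1, k1 = f 1 (K + 16) := ⟨_, rfl⟩
  obtain ⟨k2, hk2⟩ : ∃ k2, k2 = c * (((r0 + 1) ^ A + 1) * (Nat.log 2 ((r0 + 1) ^ A) + 1) ^ 2) :=
    ⟨_, rfl⟩
  obtain ⟨k3, hk3⟩ : ∃ k3, k3 = 16 + (9 + 4 * (64 * (1561 * (A + 1))) *
    (1 * (64 * (1561 * (A + 1))) + 4)) +
    Pool.Agent.Helper71.PV.kk A 1 (1561 * (A + 1)) := ⟨_, rfl⟩
  refine ⟨k1 + k2 + k3 + 16, fun r V _ G hr h1 hcrit hthr => ?_⟩
  -- small r
  by_cases hrr : r < r0
  · refine kpl_le (hc r ((r + 1) ^ A) V G hr h1 hcrit hthr) ?_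
    have h2 : (r + 1) ^ A ≤ (r0 + 1) ^ A := Nat.pow_le_pow_left (by omega) _
    have h3 : (r + 1) ^ A / r + 1 ≤ (r0 + 1) ^ A + 1 :=
      Nat.add_le_add_right ((Nat.div_le_self _ _).trans h2) _
    have h4 : (Nat.log 2 ((r + 1) ^ A) + 1) ^ 2 ≤ (Nat.log 2 ((r0 + 1) ^ A) + 1) ^ 2 :=
      Nat.pow_le_pow_left (Nat.add_le_add_right (Nat.log_mono_right h2) _) _
    have h5 := Nat.mul_le_mul_left c (Nat.mul_le_mul h3 h4)
    omega
  push Not at hrr
  -- closed threads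
  by_cases hcyc : ∀ (x : V) (D : G.Walk x x), D.IsCycle →
      ∃ u ∈ D.support, ∃ v ∈ D.support, u ≠ v ∧ 3 ≤ deg G u ∧ 3 ≤ deg G v
  swap
  · push Not at hcyc
    obtain ⟨x, D, hD, hno⟩ := hcyc
    refine kpl_le (loop16 G hcrit D hD ?_) (by omega)
    rintro ⟨u, hu, v, hv, huv, h2, h3⟩
    exact absurd (hno u hu v hv huv h2) (by omega)
  have hdeg := crit_deg G h1 hcrit
  -- the parameter s
  obtain ⟨s, hs1, hsr, hrs⟩ := exists_root r hr
  have hs0 : s0 + 3 ≤ s + 1 := by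
    by_contra hcon
    push Not at hcon
    have : (s + 1) ^ 12 ≤ (s0 + 3) ^ 12 := Nat.pow_le_pow_left (by omega) _
    rw [← hr0] at this
    omega
  have hs2 : 2 ≤ s := by omega
  have h8 : 2 ≤ s ^ 8 := hs2.trans (Nat.le_self_pow (by norm_num) _)
  have h812 : s ^ 8 ≤ s ^ 12 := Nat.pow_le_pow_right (by omega) (by norm_num)
  have hL : (r + 1) ^ A ≤ (r + 1) ^ (A + 1) := Nat.pow_le_pow_right (by omega) (by omega)
  have hlow' : ∀ u v (p : G.Walk u v), p.IsPath → u ≠ v → 3 ≤ deg G u → 3 ≤ deg G v →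
      (∀ x ∈ p.support, x ≠ u → x ≠ v → deg G x = 2) → s ^ 12 ≤ p.length :=
    fun u v p hp huv hu hv hin => hsr.trans (hthr u v p hp huv hu hv hin).1
  have hlow : ∀ u v (p : G.Walk u v), p.IsPath → u ≠ v → 3 ≤ deg G u → 3 ≤ deg G v →
      (∀ x ∈ p.support, x ≠ u → x ≠ v → deg G x = 2) → s ^ 8 ≤ p.length :=
    fun u v p hp huv hu hv hin => h812.trans (hlow' u v p hp huv hu hv hin)
  have hup : ∀ u v (p : G.Walk u v), p.IsPath →
      (∀ x ∈ p.support, x ≠ u → x ≠ v → deg G x = 2) → p.length ≤ (r + 1) ^ (A + 1) :=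
    fun u v p hp hin => path_le G _ hdeg hcyc
      (fun u v p hp huv hu hv hin => (hthr u v p hp huv hu hv hin).2.trans hL) p hp hin
  -- no hubs
  by_cases hU : ∀ v, deg G v ≤ 1 * s ^ 8
  · refine kpl_le (Pool.Agent.Helper71.PV.main_c A 1 _ rfl V G r h1 hcrit hthr (fun v => ?_))
      (by omega)
    have := hU v
    omega
  push Not at hU
  obtain ⟨a, ha⟩ := hU
  have hLr : s ^ 8 ≤ (r + 1) ^ (A + 1) := by
    calc s ^ 8 ≤ r + 1 := by omega
      _ ≤ (r + 1) ^ (A + 1) := Nat.le_self_pow (by omega) _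
  obtain ⟨P, Q, hP, hQ, D, hDG, hDr, hDL, hDK, hDU, hOk, hGOk⟩ :=
    exists_hd G (s ^ 8) ((r + 1) ^ (A + 1)) 1 h8 hLr (by omega) hdeg hlow hup hcyc
  have hKr : D.Kh * D.r = s ^ 8 := by rw [hDK, hDr, Nat.one_mul]
  by_contra hcon
  have hBad : Pool.Agent.Helper83.PH.BadW D (K + 16) (s ^ 12) := by
    refine hf 1 (K + 16) (by omega) V P Q D (s ^ 12) (s ^ 12) ⟨hOk, hGOk, ?_, ?_, ?_, ?_, ?_⟩ ?_
    · exact h8.trans h812
    · rw [hKr, Nat.one_mul]
      exact h812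
    · rw [Nat.one_mul]
    · intro u v p
      revert p
      rw [hDG]
      exact hlow' u v
    · rw [hDG]
      exact hcrit
    · rw [hDG]
      intro h
      exact hcon (kpl_le h (by omega))
  have hwk : Pool.Agent.Helper63.PH.Wk D K (s ^ 4) := by
    refine wk_of_badW hOk (by omega) ?_ hBad
    rw [hKr, ← pow_add]
  obtain ⟨b, hb⟩ : ∃ b, G.Adj a b := by
    have : (G.neighborSet a).Nonempty := by
      rw [← Set.ncard_pos (Set.toFinite _)]
      unfold deg at ha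
      omega
    exact this
  have haU : a ∈ D.U := by rw [hDU]; exact ha
  obtain ⟨pos, γ, hd, hcr⟩ := hcrit s(a, b) hb
  refine hcount V P Q D (G.deleteEdges {s(a, b)}) s(a, b) (CrossRel γ) s hOk hGOk ⟨a, haU⟩
    ?_ (by omega) hKr ?_ ?_ hwk
  · refine ⟨by rw [hDG], by rw [hDG]; exact hb, ?_, crossRel_symm γ, ?_,
      planarLike_of_drawing _ pos γ hd⟩
    · intro h
      exact hOk.N_U a b h haU
    · intro f hf
      have hf' : f ∈ G.edgeSet ∧ f ≠ s(a, b) := by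
        rw [SimpleGraph.edgeSet_deleteEdges] at hf
        exact ⟨hf.1, hf.2⟩
      refine le_trans (Set.ncard_le_ncard ?_ (Set.toFinite _))
        (partner_le G s(a, b) γ hcr f hf'.1 hf'.2)
      rintro f' ⟨h2, h3⟩
      rw [SimpleGraph.edgeSet_deleteEdges] at h2
      exact ⟨h2.1, h2.2, h3⟩
  · -- the bound for the lengths
    rw [hDL]
    have h2 : s + 1 ≤ s ^ 2 := by
      have : s ^ 2 = s * s := sq s
      rw [this]
      nlinarith
    have h3 : r + 1 ≤ s ^ 36 := by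
      calc r + 1 ≤ (s + 1) ^ 12 := hrs
        _ ≤ (s ^ 2) ^ 12 := Nat.pow_le_pow_left h2 _
        _ = s ^ 24 := by rw [← pow_mul]
        _ ≤ s ^ 36 := Nat.pow_le_pow_right (by omega) (by norm_num)
    calc (r + 1) ^ (A + 1) ≤ (s ^ 36) ^ (A + 1) := Nat.pow_le_pow_left h3 _
      _ = s ^ B := by rw [← pow_mul, hB]
  · -- all threads are long
    constructor
    · intro p
      have := hOk.w_ge p
      rwa [hDr] at this
    · intro q
      have := hGOk.wq_ge q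
      rwa [hDr] at this
    · intro u v W huv hu hv
      have := hOk.thr_ge u v W huv hu hv
      rwa [hDr] at this

/-- **Theorem (PH)** for `m`-planar-critical graphs -/
theorem main_PHm : ∃ K : ℕ → ℕ, ∀ (A m r : ℕ) (V : Type) [Fintype V] (G : SimpleGraph V), 1 ≤ m →
    1 ≤ r → ¬ KPl m G → (∀ e ∈ G.edgeSet, KPl m (G.deleteEdges {e})) →
    ThrLen G r ((r + 1) ^ A) → KPl (K A * m) G := by
  classical
  choose K hK using main_PH
  refine ⟨fun A => K (A + 1), fun A m r V _ G hm hr h1 hcrit hthr => s1 m _ hm G ?_⟩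
  have hmr : 1 ≤ m * r := Nat.mul_pos hm hr
  have a1 : ¬ KPl 1 (Sd m G) := by
    intro h
    apply h1
    have := s1 m 1 hm G h
    rwa [Nat.one_mul] at this
  have a2 : ∀ e ∈ (Sd m G).edgeSet, KPl 1 ((Sd m G).deleteEdges {e}) := by
    intro e he
    obtain ⟨f, t, hf, ht, rfl⟩ := Sd_edge.1 he
    exact s3 m hm G f hf t ht (s2 m hm _ (hcrit f hf))
  have a3 : ThrLen (Sd m G) (m * r) (m * (r + 1) ^ A) := s4 m hm G r _ hthr
  refine hK (A + 1) (m * r) (SV V m) (Sd m G) hmr a1 a2 ?_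
  intro u v p hp huv hu hv hin
  have h2 := a3 u v p hp huv hu hv hin
  refine ⟨h2.1, h2.2.trans ?_⟩
  have h3 : m ≤ m * r + 1 := (Nat.le_mul_of_pos_right m hr).trans (Nat.le_succ _)
  have h4 : r + 1 ≤ m * r + 1 := Nat.add_le_add_right (Nat.le_mul_of_pos_left r hm) _
  calc m * (r + 1) ^ A ≤ (m * r + 1) * (m * r + 1) ^ A :=
        Nat.mul_le_mul h3 (Nat.pow_le_pow_left h4 _)
    _ = (m * r + 1) ^ (A + 1) := by rw [pow_succ, mul_comm]

end Pool.Agent.Helper93.PH
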